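import Mathlib
import Pool.Agent.Q23.CvxE

/-!
# MP_b7123c_al: a linearly orderable soluble group of derived length exactly 3 has at least two
proper normal relatively convex subgroups

So no such group has exactly one.
-/

namespace Pool.Agent.Results.MP_b7123c_al.AtLeastTwo

universe u

/-- The linear order `lo` on the group `G` is invariant under multiplication on both sides. -/
def BiInvariant (G : Type u) [Group G] (lo : LinearOrder G) : Prop :=
  (∀ a b c : G, lo.le a b → lo.le (c * a) (c * b)) ∧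
    (∀ a b c : G, lo.le a b → lo.le (a * c) (b * c))

/-- `G` admits a two-sided invariant total order. -/
def LinearlyOrderable (G : Type u) [Group G] : Prop :=
  ∃ lo : LinearOrder G, BiInvariant G lo

/-- `H` is convex with respect to at least one two-sided invariant total order of `G`. -/
def RelativelyConvex {G : Type u} [Group G] (H : Subgroup G) : Prop :=
  ∃ lo : LinearOrder G, BiInvariant G lo ∧
    ∀ h₁ ∈ H, ∀ h₂ ∈ H, ∀ g : G, lo.le h₁ g → lo.le g h₂ → g ∈ H

/-- `H` is a normal relatively convex subgroup different from `1` and from `G`. -/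
def ProperNormalRelConvex {G : Type u} [Group G] (H : Subgroup G) : Prop :=
  H ≠ ⊥ ∧ H ≠ ⊤ ∧ H.Normal ∧ RelativelyConvex H

/-- Derived length exactly `3`. -/
def DerivedLengthThree (G : Type u) [Group G] : Prop :=
  derivedSeries G 3 = ⊥ ∧ derivedSeries G 2 ≠ ⊥

theorem result :
    (∀ (G : Type u) [Group G], LinearlyOrderable G → DerivedLengthThree G →
      ∃ H₁ H₂ : Subgroup G, H₁ ≠ H₂ ∧ ProperNormalRelConvex H₁ ∧ ProperNormalRelConvex H₂) ∧
    ¬ ∃ (G : Type u) (_ : Group G), LinearlyOrderable G ∧ DerivedLengthThree G ∧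
      ∃! H : Subgroup G, ProperNormalRelConvex H := by
  have main : ∀ (G : Type u) [Group G], LinearlyOrderable G → DerivedLengthThree G →
      ∃ H₁ H₂ : Subgroup G, H₁ ≠ H₂ ∧ ProperNormalRelConvex H₁ ∧ ProperNormalRelConvex H₂ := by
    intro G _ hO hd
    obtain ⟨lo, hl, hr⟩ := hO
    let _ := lo
    have : MulLeftMono G := ⟨fun c a b hab => hl a b c hab⟩
    have : MulRightMono G := ⟨fun c a b hab => hr a b c hab⟩
    have hbot : ∃ P, Q23Cvx.RelCone (⊥ : Subgroup G) P :=
      ⟨_, Q23Cvx.relCone_of_convex ⊥ Q23Cvx.cv_bot⟩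
    have e2 : derivedSeries G 2 = ⁅commutator G, commutator G⁆ := rfl
    have e3 : derivedSeries G 3 =
      ⁅⁅commutator G, commutator G⁆, ⁅commutator G, commutator G⁆⁆ := rfl
    obtain ⟨H₁, H₂, hne, h1, h2⟩ := Q23Cvx.two_good hbot (by rw [← e2]; exact hd.2) (by
      intro a ha b hb
      have h3 := hd.1
      rw [e3, Subgroup.commutator_eq_bot_iff_le_centralizer] at h3
      exact ((Subgroup.mem_centralizer_iff.1 (h3 ha)) b hb).symm)
    have conv : ∀ H : Subgroup G, Q23Cvx.Good H → ProperNormalRelConvex H := by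
      rintro H ⟨hb, ht, hn, P, hP⟩
      obtain ⟨lo', h1, h2⟩ := Q23Cvx.order_of_relCone H hP
      exact ⟨hb, ht, hn, lo', h1, h2⟩
    exact ⟨H₁, H₂, hne, conv _ h1, conv _ h2⟩
  refine ⟨main, ?_⟩
  rintro ⟨G, _, hO, hd, H, hH, huniq⟩
  obtain ⟨H₁, H₂, hne, h1, h2⟩ := main G hO hd
  exact hne ((huniq H₁ h1).trans (huniq H₂ h2).symm)

end Pool.Agent.Results.MP_b7123c_al.AtLeastTwo
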